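import Pool.Agent.helper28.OC.Base

open scoped BigOperators

namespace Pool.Agent.helper28.OC

open L1G

/-- The mean over the finite subgroup `H` (and `0` if `H` is infinite). -/
noncomputable def A3c_p {G : Type*} [Group G] (H : Subgroup G) : MonoidAlgebra ℂ G :=
  (Nat.card H : ℂ)⁻¹ • ∑ᶠ x : H, MonoidAlgebra.single (x : G) (1 : ℂ)

theorem A3c_p_infinite {G : Type*} [Group G] (H : Subgroup G) [Infinite H] : A3c_p H = 0 := by
  rw [A3c_p, Nat.card_eq_zero_of_infinite, Nat.cast_zero, inv_zero, zero_smul]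

theorem A3c_p_fintype {G : Type*} [Group G] (H : Subgroup G) [Fintype H] :
    A3c_p H = (Fintype.card H : ℂ)⁻¹ • ∑ x : H, MonoidAlgebra.single (x : G) (1 : ℂ) := by
  rw [A3c_p, Nat.card_eq_fintype_card, finsum_eq_sum_of_fintype]

theorem A3c_left {G : Type*} [Group G] (H : Subgroup G) (h : G) (hh : h ∈ H) :
    MonoidAlgebra.single h (1 : ℂ) * A3c_p H = A3c_p H := by
  rcases finite_or_infinite H with hf | hf
  · have := Fintype.ofFinite H
    rw [A3c_p_fintype, mul_smul_comm, Finset.mul_sum]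
    congr 1
    rw [← Equiv.sum_comp (Equiv.mulLeft (⟨h, hh⟩ : H))
      (fun x : H => MonoidAlgebra.single (x : G) (1 : ℂ))]
    apply Finset.sum_congr rfl
    intro x _
    rw [MonoidAlgebra.single_mul_single, one_mul]
    rfl
  · rw [A3c_p_infinite, mul_zero]

theorem A3c_right {G : Type*} [Group G] (H : Subgroup G) (h : G) (hh : h ∈ H) :
    A3c_p H * MonoidAlgebra.single h (1 : ℂ) = A3c_p H := by
  rcases finite_or_infinite H with hf | hf
  · have := Fintype.ofFinite H
    rw [A3c_p_fintype, smul_mul_assoc, Finset.sum_mul]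
    congr 1
    rw [← Equiv.sum_comp (Equiv.mulRight (⟨h, hh⟩ : H))
      (fun x : H => MonoidAlgebra.single (x : G) (1 : ℂ))]
    apply Finset.sum_congr rfl
    intro x _
    rw [MonoidAlgebra.single_mul_single, one_mul]
    rfl
  · rw [A3c_p_infinite, zero_mul]

/-- an element fixed by all `x ∈ K` on the left is fixed by `p_K` -/
theorem A3c_p_mul {G : Type*} [Group G] (K : Subgroup G) [Finite K] (a : MonoidAlgebra ℂ G)
    (ha : ∀ x ∈ K, MonoidAlgebra.single x (1 : ℂ) * a = a) : A3c_p K * a = a := by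
  have := Fintype.ofFinite K
  rw [A3c_p_fintype, smul_mul_assoc, Finset.sum_mul, Finset.sum_congr rfl fun (x : K) _ => ha x x.2,
    Finset.sum_const, Finset.card_univ, ← Nat.cast_smul_eq_nsmul ℂ, smul_smul,
    inv_mul_cancel₀ (by exact_mod_cast Fintype.card_ne_zero), one_smul]

theorem A3c_mul_p {G : Type*} [Group G] (K : Subgroup G) [Finite K] (a : MonoidAlgebra ℂ G)
    (ha : ∀ x ∈ K, a * MonoidAlgebra.single x (1 : ℂ) = a) : a * A3c_p K = a := by
  have := Fintype.ofFinite K
  rw [A3c_p_fintype, mul_smul_comm, Finset.mul_sum, Finset.sum_congr rfl fun (x : K) _ => ha x x.2,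
    Finset.sum_const, Finset.card_univ, ← Nat.cast_smul_eq_nsmul ℂ, smul_smul,
    inv_mul_cancel₀ (by exact_mod_cast Fintype.card_ne_zero), one_smul]

theorem A3c_idem {G : Type*} [Group G] (H : Subgroup G) : A3c_p H * A3c_p H = A3c_p H := by
  rcases finite_or_infinite H with hf | hf
  · exact A3c_p_mul H _ fun x hx => A3c_left H x hx
  · rw [A3c_p_infinite, zero_mul]

theorem A3c_adjoint_single {G : Type*} [Group G] (g : G) :
    ContinuousLinearMap.adjoint (Lam (MonoidAlgebra.single g (1 : ℂ))) =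
      Lam (MonoidAlgebra.single g⁻¹ (1 : ℂ)) := by
  symm
  rw [ContinuousLinearMap.eq_adjoint_iff]
  intro x y
  rw [Lam_single, Lam_single, one_smul, one_smul, inner_tr, inv_inv]

theorem A3c_adjoint_p {G : Type*} [Group G] (H : Subgroup G) :
    ContinuousLinearMap.adjoint (Lam (A3c_p H)) = Lam (A3c_p H) := by
  rcases finite_or_infinite H with hf | hf
  · have := Fintype.ofFinite H
    rw [A3c_p_fintype, map_smul, map_sum, map_smulₛₗ, map_sum]
    have h1 : (starRingEnd ℂ) ((Fintype.card H : ℂ)⁻¹) = (Fintype.card H : ℂ)⁻¹ := by simp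
    rw [h1]
    congr 1
    rw [← Equiv.sum_comp (Equiv.inv H)
      (fun x : H => Lam (MonoidAlgebra.single (x : G) (1 : ℂ)))]
    apply Finset.sum_congr rfl
    intro x _
    rw [A3c_adjoint_single]
    rfl
  · rw [A3c_p_infinite, map_zero, map_zero]

/-- a vector fixed by all `x ∈ K` is fixed by `p_K` -/
theorem A3c_Lam_p {G : Type*} [Group G] (K : Subgroup G) [Finite K] (z : L2 G)
    (hz : ∀ x ∈ K, tr x z = z) : Lam (A3c_p K) z = z := by
  have := Fintype.ofFinite K
  rw [A3c_p_fintype, map_smul, map_sum, smul_apply,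
    sum_apply]
  have : ∀ x : K, Lam (MonoidAlgebra.single (x : G) (1 : ℂ)) z = z := fun x => by
    rw [Lam_single, one_smul, hz x x.2]
  rw [Finset.sum_congr rfl fun x _ => this x, Finset.sum_const, Finset.card_univ,
    ← Nat.cast_smul_eq_nsmul ℂ, smul_smul,
    inv_mul_cancel₀ (by exact_mod_cast Fintype.card_ne_zero), one_smul]

/-- a vector of `ℓ₂(G)` fixed by an infinite subgroup is `0` -/
theorem A3c_zero {G : Type*} [Group G] (H : Subgroup G) [Infinite H] (z : L2 G)
    (hz : ∀ x ∈ H, tr x z = z) : z = 0 := by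
  ext x
  have h1 := summable_sq z
  have hinj : Function.Injective fun h : H => (h : G)⁻¹ * x := by
    intro a b hab
    have : (a : G)⁻¹ = (b : G)⁻¹ := mul_right_cancel hab
    exact Subtype.ext (inv_injective this)
  have h2 := h1.comp_injective hinj
  have h3 : ((fun y => ‖z y‖ ^ 2) ∘ fun h : H => (h : G)⁻¹ * x) = fun _ => ‖z x‖ ^ 2 := by
    funext h
    have h4 : tr (h : G) z x = z x := by rw [hz h h.2]
    have h5 : tr (h : G) z x = z ((h : G)⁻¹ * x) := rfl
    simp only [Function.comp_apply]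
    rw [← h5, h4]
  rw [h3, summable_const_iff] at h2
  have : ‖z x‖ = 0 := by simpa using h2
  simpa using this

/-- module A3c (independent): the idempotent `e = p_K - p_H` and `v = p_K k (1 - p_K)`. -/
theorem A3c_exists_ev {G : Type*} [Group G] (K : Subgroup G) [Finite K] (hK : ¬ K.Normal) :
    ∃ e v : MonoidAlgebra ℂ G, e * e = e ∧ v * e = 0 ∧ e * v = v ∧ v ≠ 0 ∧
      ∀ ξ : L2 G, ContinuousLinearMap.adjoint (Lam v) ξ = 0 →
        ContinuousLinearMap.adjoint (Lam e) ξ = 0 := by
  classical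
  obtain ⟨x, hx, k, hk⟩ : ∃ x ∈ K, ∃ k : G, k * x * k⁻¹ ∉ K := by
    by_contra hcon
    push Not at hcon
    exact hK ⟨fun x hx k => hcon x hx k⟩
  set H : Subgroup G := K ⊔ K.map (MulAut.conj k).toMonoidHom with hH
  have hKH : K ≤ H := le_sup_left
  have hkH : ∀ y ∈ K, k * y * k⁻¹ ∈ H := fun y hy =>
    (le_sup_right : K.map (MulAut.conj k).toMonoidHom ≤ H) ⟨y, hy, rfl⟩
  set κ : MonoidAlgebra ℂ G := MonoidAlgebra.single k (1 : ℂ) with hκ
  have h1 : A3c_p K * A3c_p H = A3c_p H := A3c_p_mul K _ fun y hy => A3c_left H y (hKH hy)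
  have h2 : A3c_p H * A3c_p K = A3c_p H := A3c_mul_p K _ fun y hy => A3c_right H y (hKH hy)
  have h3 : A3c_p H * κ * A3c_p K = A3c_p H * κ := by
    apply A3c_mul_p K
    intro y hy
    have e1 : κ * MonoidAlgebra.single y (1 : ℂ) = MonoidAlgebra.single (k * y * k⁻¹) (1 : ℂ) * κ := by
      rw [hκ, MonoidAlgebra.single_mul_single, MonoidAlgebra.single_mul_single, one_mul]
      congr 1
      group
    rw [mul_assoc, e1, ← mul_assoc, A3c_right H _ (hkH y hy)]
  have hKK := A3c_idem K
  have hHH := A3c_idem H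
  refine ⟨A3c_p K - A3c_p H, A3c_p K * κ * (1 - A3c_p K), ?_, ?_, ?_, ?_, ?_⟩
  · rw [sub_mul, mul_sub, mul_sub, hKK, h1, h2, hHH]
    abel
  · have : (1 - A3c_p K) * (A3c_p K - A3c_p H) = 0 := by
      rw [sub_mul, mul_sub, mul_sub, hKK, h1, one_mul, one_mul]
      abel
    rw [mul_assoc, this, mul_zero]
  · have : A3c_p H * (A3c_p K * κ * (1 - A3c_p K)) = 0 := by
      rw [← mul_assoc, ← mul_assoc, h2, mul_sub, mul_one, h3, sub_self]
    rw [sub_mul, this, sub_zero, ← mul_assoc, ← mul_assoc, hKK]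
  · intro hv
    have e1 : A3c_p K * κ = A3c_p K * κ * A3c_p K := by
      rw [mul_sub, mul_one, sub_eq_zero] at hv
      exact hv
    have e2 : A3c_p K * κ * MonoidAlgebra.single x (1 : ℂ) = A3c_p K * κ := by
      rw [e1, mul_assoc, A3c_right K x hx]
    have e3 : A3c_p K * MonoidAlgebra.single (k * x * k⁻¹) (1 : ℂ) = A3c_p K := by
      have : A3c_p K * κ * MonoidAlgebra.single x (1 : ℂ) * MonoidAlgebra.single k⁻¹ (1 : ℂ) =
          A3c_p K * κ * MonoidAlgebra.single k⁻¹ (1 : ℂ) := by rw [e2]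
      rw [mul_assoc, mul_assoc, mul_assoc, hκ, MonoidAlgebra.single_mul_single,
        MonoidAlgebra.single_mul_single, MonoidAlgebra.single_mul_single, one_mul, one_mul,
        mul_inv_cancel] at this
      rw [mul_assoc k x k⁻¹, this]
      exact mul_one _
    have := Fintype.ofFinite K
    have hc : ∀ g : G, (A3c_p K).coeff g = if g ∈ K then (Fintype.card K : ℂ)⁻¹ else 0 := by
      intro g
      rw [A3c_p_fintype, MonoidAlgebra.coeff_smul, MonoidAlgebra.coeff_sum]
      rw [Finsupp.smul_apply, Finsupp.finsetSum_apply]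
      split_ifs with hg
      · rw [Finset.sum_eq_single (⟨g, hg⟩ : K)]
        · simp [MonoidAlgebra.coeff_single]
        · intro y _ hy
          have : (y : G) ≠ g := fun h => hy (Subtype.ext h)
          simp [MonoidAlgebra.coeff_single, this]
        · intro h; exact absurd (Finset.mem_univ _) h
      · rw [Finset.sum_eq_zero, smul_zero]
        intro y _
        have : (y : G) ≠ g := fun h => hg (h ▸ y.2)
        simp [MonoidAlgebra.coeff_single, this]
    have e4 : (A3c_p K * MonoidAlgebra.single (k * x * k⁻¹) (1 : ℂ)).coeff (k * x * k⁻¹) =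
        (A3c_p K).coeff (k * x * k⁻¹) := by rw [e3]
    rw [MonoidAlgebra.coeff_mul_single_apply, hc, hc, if_neg hk, mul_inv_cancel,
      if_pos K.one_mem, mul_one] at e4
    exact absurd e4 (inv_ne_zero (by exact_mod_cast Fintype.card_ne_zero))
  · intro ξ hξ
    set z := Lam (A3c_p K) ξ with hz
    have hzK : ∀ y ∈ K, tr y z = z := by
      intro y hy
      have : Lam (MonoidAlgebra.single y (1 : ℂ)) z = z := by
        rw [hz, ← mul_apply_eq_comp, ← map_mul, A3c_left K y hy]
      rwa [Lam_single, one_smul] at this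
    have hadj : ContinuousLinearMap.adjoint (Lam (A3c_p K * κ * (1 - A3c_p K))) =
        (1 - Lam (A3c_p K)) * (Lam (MonoidAlgebra.single k⁻¹ (1 : ℂ)) * Lam (A3c_p K)) := by
      have e5 : Lam (A3c_p K * κ * (1 - A3c_p K)) =
          (Lam (A3c_p K) ∘L Lam κ) ∘L (1 - Lam (A3c_p K)) := by
        rw [map_mul, map_mul, map_sub, map_one]
        rfl
      have e6 : ContinuousLinearMap.adjoint (1 : L2 G →L[ℂ] L2 G) = 1 :=
        ContinuousLinearMap.adjoint_id
      rw [e5, ContinuousLinearMap.adjoint_comp, ContinuousLinearMap.adjoint_comp, A3c_adjoint_p, hκ,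
        A3c_adjoint_single, map_sub, A3c_adjoint_p, e6]
      rfl
    rw [hadj] at hξ
    have hξ2 : tr k⁻¹ z = Lam (A3c_p K) (tr k⁻¹ z) := by
      have : (1 - Lam (A3c_p K)) (Lam (MonoidAlgebra.single k⁻¹ (1 : ℂ)) (Lam (A3c_p K) ξ)) = 0 := hξ
      rw [← hz, Lam_single, one_smul, sub_apply,
        one_apply_eq_self, sub_eq_zero] at this
      exact this
    have hzk : ∀ y ∈ K, tr (k * y * k⁻¹) z = z := by
      intro y hy
      have h4 : tr y (tr k⁻¹ z) = tr k⁻¹ z := by
        have : Lam (MonoidAlgebra.single y (1 : ℂ)) (Lam (A3c_p K) (tr k⁻¹ z)) =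
            Lam (A3c_p K) (tr k⁻¹ z) := by
          rw [← mul_apply_eq_comp, ← map_mul, A3c_left K y hy]
        rw [← hξ2, Lam_single, one_smul] at this
        exact this
      rw [mul_assoc, tr_mul, tr_mul, h4, ← tr_mul, mul_inv_cancel, tr_one]
    have hstab : ∀ y ∈ H, tr y z = z := by
      let S : Subgroup G :=
        { carrier := {y | tr y z = z}
          mul_mem' := fun {a b} ha hb => by
            show tr (a * b) z = z
            rw [tr_mul, show tr b z = z from hb, show tr a z = z from ha]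
          one_mem' := tr_one z
          inv_mem' := fun {a} ha => by
            show tr a⁻¹ z = z
            conv_lhs => rw [← show tr a z = z from ha]
            rw [← tr_mul, inv_mul_cancel, tr_one] }
      have hS : H ≤ S := by
        rw [hH, sup_le_iff]
        refine ⟨fun y hy => hzK y hy, ?_⟩
        rintro _ ⟨y, hy, rfl⟩
        exact hzk y hy
      exact fun y hy => hS hy
    have hgoal : Lam (A3c_p H) ξ = z := by
      rcases finite_or_infinite H with hf | hf
      · rw [← h2, map_mul, mul_apply_eq_comp, ← hz]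
        exact A3c_Lam_p H z hstab
      · rw [A3c_p_infinite, map_zero, A3c_zero H z hstab]
        rfl
    rw [map_sub, map_sub, A3c_adjoint_p, A3c_adjoint_p, sub_apply, hgoal,
      ← hz, sub_self]

end Pool.Agent.helper28.OC
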