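import Pool.Agent.helper28.OC.Base

open scoped BigOperators

namespace Pool.Agent.helper28.OC

open L1G

/-- The subgroup of the multiples of `m`. -/
def A2_S (A : Type*) [AddCommGroup A] (m : ℕ) : AddSubgroup A := (nsmulAddMonoidHom m : A →+ A).range

theorem A2_index_mul {A : Type*} [AddCommGroup A] (p m : ℕ) (hp : (A2_S A p).index ≠ 0)
    (hm : (A2_S A m).index ≠ 0) : (A2_S A (p * m)).index ≠ 0 := by
  have h1 : A2_S A (p * m) = (A2_S A p).map (nsmulAddMonoidHom m : A →+ A) := by
    ext x
    simp only [A2_S, AddSubgroup.mem_map, AddMonoidHom.mem_range, nsmulAddMonoidHom_apply]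
    constructor
    · rintro ⟨a, rfl⟩
      exact ⟨p • a, ⟨a, rfl⟩, by rw [← mul_nsmul]⟩
    · rintro ⟨_, ⟨a, rfl⟩, rfl⟩
      exact ⟨a, by rw [← mul_nsmul]⟩
  rw [h1, AddSubgroup.index_map]
  refine mul_ne_zero (fun h => hp ?_) hm
  exact Nat.eq_zero_of_zero_dvd (h ▸ AddSubgroup.index_dvd_of_le le_sup_left)

theorem A2_exists_prime {A : Type*} [AddCommGroup A] [Infinite A] {n : ℕ} (hn : 0 < n)
    (hA : ∀ a : A, n • a = 0) : ∃ p : ℕ, p.Prime ∧ (A2_S A p).index = 0 := by
  by_contra hcon
  push Not at hcon
  have h : ∀ m : ℕ, 0 < m → (A2_S A m).index ≠ 0 := by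
    intro m
    induction m using induction_on_primes with
    | zero => intro h; exact absurd h (lt_irrefl _)
    | one =>
      intro _
      have : A2_S A 1 = ⊤ := by
        rw [A2_S, AddMonoidHom.range_eq_top]
        intro a
        exact ⟨a, by simp⟩
      rw [this, AddSubgroup.index_top]
      exact one_ne_zero
    | prime_mul p m hp ih =>
      intro hpm
      have hm : 0 < m := Nat.pos_of_mul_pos_left hpm
      exact A2_index_mul p m (hcon p hp) (ih hm)
  apply h n hn
  have : A2_S A n = ⊥ := by
    rw [eq_bot_iff]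
    rintro _ ⟨a, rfl⟩
    simp [hA a]
  rw [this, AddSubgroup.index_bot, Nat.card_eq_zero_of_infinite]

theorem A2_vec {V : Type*} [AddCommGroup V] [Infinite V] (p : ℕ) [Fact p.Prime]
    [Module (ZMod p) V] (I : Type) [Countable I] :
    ∃ F : V →ₗ[ZMod p] (I →₀ ZMod p), Function.Surjective F := by
  classical
  let b := Module.Basis.ofVectorSpace (ZMod p) V
  have hι : Infinite (Module.Basis.ofVectorSpaceIndex (ZMod p) V) := by
    rw [← not_finite_iff_infinite]
    intro hfin
    have : Fintype (Module.Basis.ofVectorSpaceIndex (ZMod p) V) := Fintype.ofFinite _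
    have : Finite V := Finite.of_equiv _ (b.equivFun).toEquiv.symm
    exact not_finite V
  obtain ⟨f₁, hf₁⟩ := Countable.exists_injective_nat I
  let f₂ := Infinite.natEmbedding (Module.Basis.ofVectorSpaceIndex (ZMod p) V)
  let f := fun i => f₂ (f₁ i)
  have hf : Function.Injective f := f₂.injective.comp hf₁
  refine ⟨(Finsupp.lcomapDomain f hf) ∘ₗ b.repr.toLinearMap, fun u => ?_⟩
  refine ⟨b.repr.symm (Finsupp.mapDomain f u), ?_⟩
  simp only [LinearMap.comp_apply, LinearEquiv.coe_coe, LinearEquiv.apply_symm_apply]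
  exact Finsupp.comapDomain_mapDomain f hf u

/-- module A2 (independent): an infinite abelianization of bounded exponent has a quotient
`⊕_I ℤ/p` for every countable `I`. -/
theorem A2_exists_hom {G : Type*} [Group G] {n : ℕ} (hn : 0 < n) (hG : ∀ g : G, g ^ n = 1)
    (hinf : Infinite (Abelianization G)) :
    ∃ p : ℕ, p.Prime ∧ ∀ (I : Type) [Countable I],
      ∃ φ : G →* Multiplicative (I →₀ ZMod p), Function.Surjective φ := by
  classical
  have hinfA : Infinite (Additive (Abelianization G)) := hinf
  have hA : ∀ a : Additive (Abelianization G), n • a = 0 := by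
    intro a
    obtain ⟨g, hg⟩ := QuotientGroup.mk_surjective (s := commutator G) a.toMul
    have hg' : Abelianization.of g = a.toMul := hg
    have h1 : a.toMul ^ n = 1 := by
      rw [← hg', ← map_pow, hG, map_one]
    have h2 : (n • a).toMul = 1 := by rw [toMul_nsmul, h1]
    exact h2
  obtain ⟨p, hp, hidx⟩ := A2_exists_prime hn hA
  have : Fact p.Prime := ⟨hp⟩
  refine ⟨p, hp, fun I _ => ?_⟩
  have hVinf : Infinite (Additive (Abelianization G) ⧸ A2_S (Additive (Abelianization G)) p) := by
    rw [← not_finite_iff_infinite]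
    intro hfin
    have : Nat.card (Additive (Abelianization G) ⧸ A2_S (Additive (Abelianization G)) p) ≠ 0 :=
      Nat.card_pos.ne'
    exact this hidx
  have hpV : ∀ v : Additive (Abelianization G) ⧸ A2_S (Additive (Abelianization G)) p,
      p • v = 0 := by
    intro v
    obtain ⟨a, rfl⟩ := QuotientAddGroup.mk_surjective v
    rw [← QuotientAddGroup.mk_nsmul, QuotientAddGroup.eq_zero_iff]
    exact ⟨a, rfl⟩
  obtain ⟨F, hF⟩ := @A2_vec (Additive (Abelianization G) ⧸ A2_S (Additive (Abelianization G)) p)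
    _ hVinf p _ (AddCommGroup.zmodModule hpV) I _
  let φ : G →* Multiplicative (I →₀ ZMod p) :=
    { toFun := fun g => Multiplicative.ofAdd
        (F (QuotientAddGroup.mk (Additive.ofMul (Abelianization.of g))))
      map_one' := by
        rw [map_one, ofMul_one, QuotientAddGroup.mk_zero, map_zero, ofAdd_zero]
      map_mul' := fun x y => by
        rw [map_mul, ofMul_mul, QuotientAddGroup.mk_add, map_add, ofAdd_add] }
  refine ⟨φ, fun u => ?_⟩
  obtain ⟨v, hv⟩ := hF u.toAdd
  obtain ⟨a, ha⟩ := QuotientAddGroup.mk_surjective v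
  obtain ⟨g, hg⟩ := QuotientGroup.mk_surjective (s := commutator G) a.toMul
  refine ⟨g, ?_⟩
  have h1 : (Additive.ofMul (Abelianization.of g) : Additive (Abelianization G)) = a := by
    have : Abelianization.of g = a.toMul := hg
    rw [this]; rfl
  have h2 : φ g = Multiplicative.ofAdd
      (F (QuotientAddGroup.mk (Additive.ofMul (Abelianization.of g)))) := rfl
  rw [h2, h1, ha, hv]
  rfl

end Pool.Agent.helper28.OC
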