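import Pool.Agent.helper28.OC.Base

open scoped BigOperators

namespace Pool.Agent.helper28.OC

open L1G

theorem A4_commute {G : Type*} [Group G] {n : ℕ} (hn : 0 < n)
    (hG : ∀ g : G, g ^ n = 1) (hK : ∀ K : Subgroup G, Finite K → K.Normal) (x y g : G) :
    (x⁻¹ * y⁻¹ * x * y) * g = g * (x⁻¹ * y⁻¹ * x * y) := by
  have hfin : Finite (Subgroup.zpowers g) := by
    have : IsOfFinOrder g := isOfFinOrder_iff_pow_eq_one.2 ⟨n, hn, hG g⟩
    exact this.finite_zpowers
  have hnorm := hK (Subgroup.zpowers g) hfin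
  obtain ⟨i, hi⟩ := Subgroup.mem_zpowers_iff.1 (hnorm.conj_mem g (Subgroup.mem_zpowers g) x)
  obtain ⟨j, hj⟩ := Subgroup.mem_zpowers_iff.1 (hnorm.conj_mem g (Subgroup.mem_zpowers g) y)
  have h1 : x * (y * g * y⁻¹) * x⁻¹ = g ^ (i * j) := by
    rw [← hj, ← conj_zpow, ← hi, ← zpow_mul]
  have h2 : y * (x * g * x⁻¹) * y⁻¹ = g ^ (i * j) := by
    rw [← hi, ← conj_zpow, ← hj, ← zpow_mul, mul_comm]
  have h3 : x * (y * g * y⁻¹) * x⁻¹ = y * (x * g * x⁻¹) * y⁻¹ := h1.trans h2.symm
  have h4 : g = (x⁻¹ * y⁻¹ * x * y) * g * (x⁻¹ * y⁻¹ * x * y)⁻¹ := by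
    calc g = x⁻¹ * y⁻¹ * (y * (x * g * x⁻¹) * y⁻¹) * y * x := by group
      _ = x⁻¹ * y⁻¹ * (x * (y * g * y⁻¹) * x⁻¹) * y * x := by rw [h3]
      _ = (x⁻¹ * y⁻¹ * x * y) * g * (x⁻¹ * y⁻¹ * x * y)⁻¹ := by group
  exact (mul_inv_eq_iff_eq_mul.1 h4.symm)

/-- module A4 (independent): if all finite subgroups are normal, the abelianization is infinite. -/
theorem A4_abelianization {G : Type*} [Group G] [Infinite G] {n : ℕ} (hn : 0 < n)
    (hG : ∀ g : G, g ^ n = 1) (hK : ∀ K : Subgroup G, Finite K → K.Normal) :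
    Infinite (Abelianization G) := by
  classical
  by_contra hcon
  rw [not_infinite_iff_finite] at hcon
  have hcen : commutator G ≤ Subgroup.center G := by
    rw [commutator_eq_closure, Subgroup.closure_le]
    rintro _ ⟨x, y, rfl⟩
    rw [SetLike.mem_coe, Subgroup.mem_center_iff]
    intro g
    have := A4_commute hn hG hK x⁻¹ y⁻¹ g
    simp only [inv_inv] at this
    rw [commutatorElement_def]
    exact this.symm
  have hidx : (commutator G).index ≠ 0 := by
    have : Finite (G ⧸ commutator G) := hcon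
    rw [Subgroup.index]
    exact Nat.card_pos.ne'
  have hcidx : (Subgroup.center G).index ≠ 0 := fun h =>
    hidx (Nat.eq_zero_of_zero_dvd (h ▸ Subgroup.index_dvd_of_le hcen))
  have hfinq : Finite (G ⧸ Subgroup.center G) := by
    apply Nat.finite_of_card_ne_zero
    exact hcidx
  have hset : (commutatorSet G).Finite := by
    apply (Set.finite_range fun q : (G ⧸ Subgroup.center G) × (G ⧸ Subgroup.center G) =>
      q.1.out * q.2.out * q.1.out⁻¹ * q.2.out⁻¹).subset
    rintro _ ⟨x, y, rfl⟩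
    refine ⟨((x : G ⧸ Subgroup.center G), (y : G ⧸ Subgroup.center G)), ?_⟩
    obtain ⟨z, hz⟩ := QuotientGroup.mk_out_eq_mul (Subgroup.center G) x
    obtain ⟨w, hw⟩ := QuotientGroup.mk_out_eq_mul (Subgroup.center G) y
    have hzc := fun g => Subgroup.mem_center_iff.1 z.2 g
    have hwc := fun g => Subgroup.mem_center_iff.1 w.2 g
    simp only
    rw [hz, hw, commutatorElement_def]
    have e1 : x * (z : G) * (y * (w : G)) = (x * y) * ((z : G) * w) := by
      calc x * (z : G) * (y * (w : G)) = x * ((z : G) * y) * w := by group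
        _ = x * (y * z) * w := by rw [hzc y]
        _ = _ := by group
    have e2 : (x * (z : G))⁻¹ * (y * (w : G))⁻¹ = ((z : G) * w)⁻¹ * (x⁻¹ * y⁻¹) := by
      have hyx : y * (w : G) * (x * (z : G)) = (y * x) * ((z : G) * w) := by
        calc y * (w : G) * (x * (z : G)) = y * ((w : G) * x) * z := by group
          _ = y * (x * w) * z := by rw [hwc x]
          _ = (y * x) * ((w : G) * z) := by group
          _ = _ := by rw [hzc w]
      rw [← mul_inv_rev, hyx, mul_inv_rev, mul_inv_rev, mul_inv_rev]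
    calc x * (z : G) * (y * (w : G)) * (x * (z : G))⁻¹ * (y * (w : G))⁻¹
        = (x * (z : G) * (y * (w : G))) * ((x * (z : G))⁻¹ * (y * (w : G))⁻¹) := by group
      _ = (x * y) * ((z : G) * w) * (((z : G) * w)⁻¹ * (x⁻¹ * y⁻¹)) := by rw [e1, e2]
      _ = x * y * x⁻¹ * y⁻¹ := by group
  have : Finite (commutatorSet G) := hset
  have hfc : Finite (commutator G) := inferInstance
  have h1 := (commutator G).card_mul_index
  rw [Nat.card_eq_zero_of_infinite (α := G)] at h1
  rcases Nat.mul_eq_zero.1 h1 with h | h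
  · exact Nat.card_pos.ne' h
  · exact hidx h

end Pool.Agent.helper28.OC
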